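import Mathlib
import Pool.Agent.TH344.MT.Main
import Pool.Agent.TH344.MT.Cnt
import Pool.Agent.TH344.MT.Loc
import Pool.Agent.TH344.MT.Sum
import Pool.Agent.TH344.MT.Tri
import Pool.Agent.TH344.MT.Sie
import Pool.Agent.TH344.MT.Eul
import Pool.Agent.TH344.MT.Sel
import Pool.Agent.TH344.MO.Hgt

/-!
# The exact order of the moments of the 2-Selmer groups of the curves with full rational 2-torsion

All elliptic curves over `ℚ` with full rational 2-torsion, ordered by height: the average of the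
`κ`-th power of the order of the 2-Selmer group is bounded if and only if `κ ≤ 2`. For `κ > 2` it is
at least `c (log H) ^ (2^(κ-1) + 2^(1-κ) - 5/2)`, and the exponent is positive. For natural numbers
`k > 2` this is the exact order: the average is at most `C (log H) ^ (2^(k-1) + 2^(1-k) - 5/2)`.

The lower bound comes from the elements `(1, d)` of the 2-Selmer group of `y² = x (x - a) (x - b)`, `d`
composed of primes `p` that divide `a - b`, `a` a square modulo `p`. For the upper bound the curves are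
translated: the 2-Selmer group of `y² = (x - e₁ - t) (x - e₂ - t) (x - e₃ - t)` does not depend on `t`,
and the sum of the `k`-th powers over all the triples of distinct integers of a box of side `N` is at
most `C N³ (log N) ^ (2^(k-1) + 2^(1-k) - 5/2)` (the case of genus one of a theorem on the Jacobians of
the curves `y² = ∏ (x - a_i)`).
-/

namespace Pool.Agent.Results.MP_8cb858_nt.HeightMomentOrders

open Finset Filter

/-- the curve `y² = x³ + A x + B` over `ℚ` -/
def E (A B : ℤ) : WeierstrassCurve ℚ := ⟨0, 0, 0, (A : ℚ), (B : ℚ)⟩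

/-- The pairs `(A, B)` of integers such that `4 A³ + 27 B² ≠ 0`, there is no prime `p` with
`p⁴ ∣ A` and `p⁶ ∣ B`, `Z/2 x Z/2` embeds in the group of the rational points of
`y² = x³ + A x + B`, and the height `max (4 |A|³) (27 B²)` is at most `H`. Every elliptic curve over
`ℚ` with full rational 2-torsion is isomorphic to `E A B` for exactly one pair with the first three
properties. -/
def Fam (H : ℕ) : Set (ℤ × ℤ) :=
  {c : ℤ × ℤ | 4 * c.1 ^ 3 + 27 * c.2 ^ 2 ≠ 0 ∧
    (∀ p : ℕ, p.Prime → ¬ ((p : ℤ) ^ 4 ∣ c.1 ∧ (p : ℤ) ^ 6 ∣ c.2)) ∧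
    (∃ f : ZMod 2 × ZMod 2 →+ (E c.1 c.2).toAffine.Point, Function.Injective f) ∧
    4 * |c.1| ^ 3 ≤ H ∧ 27 * c.2 ^ 2 ≤ H}

/-- The local condition at a completion `K` of `ℚ`: there is a point `(x, y)`, `y ≠ 0`, of
`y² = x³ + A x + B` over `K` such that `(x - e) * d e` is a square for all the integer roots `e` of
`x³ + A x + B`. (Every class of `E(K) / 2 E(K)` contains a point with `y ≠ 0`.) -/
def Local (K : Type) [Field K] (A B : ℤ) (d : ℤ → ℤ) : Prop :=
  ∃ x y : K, y ≠ 0 ∧ y ^ 2 = x ^ 3 + A * x + B ∧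
    ∀ e : ℤ, e ^ 3 + A * e + B = 0 → IsSquare ((x - e) * d e)

/-- The 2-Selmer group of `y² = x³ + A x + B`, a curve with three integer roots. As `E[2]` is the
group of the families of signs with product one indexed by the roots, an element of the 2-Selmer
group is a family of classes of nonzero rational numbers modulo squares indexed by the roots `e`,
given by squarefree integers `d e` (`d e = 1` if `e` is not a root), which over `ℝ` and over `ℚ_[p]`
for all primes `p` is the family of the classes of `x - e` for a point of the curve. -/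
def Sel2 (A B : ℤ) : Set (ℤ → ℤ) :=
  {d | (∀ e, Squarefree (d e)) ∧ (∀ e : ℤ, e ^ 3 + A * e + B ≠ 0 → d e = 1) ∧ Local ℝ A B d ∧
    ∀ (p : ℕ) [Fact p.Prime], Local ℚ_[p] A B d}

/-- the average of the `κ`-th powers of the orders of the 2-Selmer groups of the curves of height at
most `H` -/
noncomputable def moment (κ : ℝ) (H : ℕ) : ℝ :=
  (∑ᶠ c ∈ Fam H, ((Sel2 c.1 c.2).ncard : ℝ) ^ κ) / (Fam H).ncard

lemma Fam_eq (H : ℕ) : Fam H = (Pool.Agent.W307.RT.Cv 2 H : Set (ℤ × ℤ)) := by
  classical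
  ext c
  have h : Pool.Agent.W307.RT.HasT 2 (Pool.Agent.W307.RT.Sh c.1 c.2) ↔
    ∃ f : ZMod 2 × ZMod 2 →+ (E c.1 c.2).toAffine.Point, Function.Injective f :=
    Pool.Agent.W307.RT.tors_iff
  unfold Fam Pool.Agent.W307.RT.Cv
  rw [Set.mem_ofPred_eq, mem_coe, mem_filter, h, mem_product, mem_Icc, mem_Icc]
  constructor
  · rintro ⟨h1, h2, h3, h4, h5⟩
    refine ⟨⟨?_, ?_⟩, h1, h4, h5, h2, h3⟩
    · rw [← abs_le]
      have h0 := abs_nonneg c.1
      rcases eq_or_lt_of_le h0 with h6 | h6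
      · rw [← h6]; positivity
      · have : 1 ≤ |c.1| := h6
        nlinarith [mul_nonneg h0 h0, mul_self_nonneg (|c.1| - 1)]
    · rw [← abs_le]
      have h0 := abs_nonneg c.2
      rw [← sq_abs] at h5
      rcases eq_or_lt_of_le h0 with h6 | h6
      · rw [← h6]; positivity
      · have : 1 ≤ |c.2| := h6
        nlinarith
  · rintro ⟨-, h1, h4, h5, h2, h3⟩
    exact ⟨h1, h2, h3, h4, h5⟩

lemma moment_eq (κ : ℝ) (H : ℕ) : moment κ H =
    (∑ c ∈ Pool.Agent.W307.RT.Cv 2 H, ((Pool.Agent.W307.SE.SelR c.1 c.2).ncard : ℝ) ^ κ) /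
      (Pool.Agent.W307.RT.Cv 2 H).card := by
  unfold moment
  rw [Fam_eq, Set.ncard_coe_finset, finsum_mem_coe_finset]
  rfl

/-- the exponent `2 ^ (κ - 1) + 2 ^ (1 - κ) - 5 / 2` -/
noncomputable def exponent (κ : ℝ) : ℝ := (2 : ℝ) ^ (κ - 1) + (2 : ℝ) ^ (1 - κ) - 5 / 2

lemma exponent_nat (k : ℕ) : exponent k = Pool.Agent.TH344.MO.gam 1 k := by
  unfold exponent Pool.Agent.TH344.MO.gam
  have h0 : (0 : ℝ) < 2 ^ k := by positivity
  rw [Real.rpow_sub (by norm_num), Real.rpow_sub (by norm_num), Real.rpow_natCast, Real.rpow_one,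
    Nat.cast_one]
  field_simp
  ring

lemma lower : Pool.Agent.TH344.MT.S_CNT ∧ Pool.Agent.TH344.MT.S_SUM ∧ Pool.Agent.TH344.MT.S_SEL :=
  ⟨Pool.Agent.TH344.MT.cnt_of Pool.Agent.TH344.MT.loc,
    Pool.Agent.TH344.MT.sum_of (Pool.Agent.TH344.MT.tri_of Pool.Agent.TH344.MT.sie)
      Pool.Agent.TH344.MT.eul, Pool.Agent.TH344.MT.sel⟩

/-- **Theorem.** The number of the elliptic curves over `ℚ` with full rational 2-torsion and height
at most `H` is finite and tends to infinity with `H`, and their 2-Selmer groups are finite. The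
average `moment κ H` of the `κ`-th powers of their orders is bounded for every real `κ ≤ 2`. For every
real `κ > 2` there is `c > 0` such that it is at least `c (log H) ^ exponent κ` for all large `H`,
where `exponent κ = 2 ^ (κ - 1) + 2 ^ (1 - κ) - 5 / 2` is positive. For every natural number `k > 2`
there is `C` such that it is at most `C (log H) ^ exponent k` for all large `H`. -/
theorem result :
    (∀ H : ℕ, (Fam H).Finite ∧ ∀ c ∈ Fam H, (Sel2 c.1 c.2).Finite) ∧
    Tendsto (fun H : ℕ => (Fam H).ncard) atTop atTop ∧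
    (∀ κ : ℝ, κ ≤ 2 → ∃ C : ℝ, ∀ H : ℕ, moment κ H ≤ C) ∧
    (∀ κ : ℝ, 2 < κ → 0 < exponent κ ∧ ∃ (c : ℝ) (H0 : ℕ), 0 < c ∧ ∀ H : ℕ, H0 ≤ H →
      c * Real.log H ^ exponent κ ≤ moment κ H) ∧
    ∀ k : ℕ, 2 < k → ∃ (C : ℝ) (H0 : ℕ), ∀ H : ℕ, H0 ≤ H →
      moment k H ≤ C * Real.log H ^ exponent k := by
  obtain ⟨hC, hS, hE⟩ := lower
  have hn : Tendsto (fun H : ℕ => (Pool.Agent.W307.RT.Cv 2 H).card) atTop atTop :=
    Pool.Agent.W307.RT.tendsto_of_low Pool.Agent.W672.FK.lowf
  obtain ⟨H1, h1⟩ := eventually_atTop.1 (hn.eventually_ge_atTop 1)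
  refine ⟨fun H => ?_, ?_, fun κ hκ => ?_, fun κ hκ => ⟨Pool.Agent.TH344.MT.gk_pos hκ, ?_⟩,
    fun k hk => ?_⟩
  · rw [Fam_eq]
    exact ⟨finite_toSet _, fun c hc => Pool.Agent.TH344.MT.selfin H c (mem_coe.1 hc)⟩
  · refine hn.congr fun H => ?_
    rw [Fam_eq, Set.ncard_coe_finset]
  · obtain ⟨C, h⟩ := Pool.Agent.TH344.MT.upper hκ
    refine ⟨max C 0, fun H => ?_⟩
    rw [moment_eq]
    rcases eq_or_ne (Pool.Agent.W307.RT.Cv 2 H).card 0 with h0 | h0
    · rw [h0, Nat.cast_zero, div_zero]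
      exact le_max_right _ _
    · rw [div_le_iff₀ (by exact_mod_cast Nat.pos_of_ne_zero h0)]
      exact (h H).trans (mul_le_mul_of_nonneg_right (le_max_left _ _) (Nat.cast_nonneg _))
  · obtain ⟨c, H0, hc, h⟩ := Pool.Agent.TH344.MT.lower hC hS hE Pool.Agent.TH344.MT.selfin hκ
    refine ⟨c, max H0 H1, hc, fun H hH => ?_⟩
    have h2 := h H ((le_max_left _ _).trans hH)
    have h3 := h1 H ((le_max_right _ _).trans hH)
    rw [moment_eq, le_div_iff₀ (by exact_mod_cast h3)]
    exact h2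
  · have hk4 : 4 ≤ 2 ^ k := by
      calc 4 = 2 ^ 2 := by norm_num
        _ ≤ 2 ^ k := Nat.pow_le_pow_right (by norm_num) (by omega)
    obtain ⟨C, H0, hC0, h⟩ := Pool.Agent.TH344.MO.upx hk4
    refine ⟨C, max H0 H1, fun H hH => ?_⟩
    have h2 := h H ((le_max_left _ _).trans hH)
    have h3 := h1 H ((le_max_right _ _).trans hH)
    rw [moment_eq, div_le_iff₀ (by exact_mod_cast h3), exponent_nat]
    simp only [Real.rpow_natCast]
    exact h2

end Pool.Agent.Results.MP_8cb858_nt.HeightMomentOrders
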