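import Mathlib
import Pool.Agent.TH841.LS.Main6
import Pool.Agent.TH841.LS.Cnt2x

/-!
# Small and large Tate-Shafarevich groups of 2-isogenous elliptic curves in short squares

`E : y² = x (x - D a) (x - D b)`, `W = E / ⟨(0, 0)⟩`, for coprime integers `a`, `b` in a short
square. For almost all the pairs the rank and the 2-primary part of the Tate-Shafarevich group of
`E` are bounded, and the Tate-Shafarevich group of `W` contains `(ℤ / 2) ^ k` with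
`k ≥ (3 / 2 - δ) log log X`, where `X` is the side of the square.
-/

set_option autoImplicit false

namespace Pool.Agent.Results.MP_8cb858_nt.LargeShaPairs

open Finset

open Pool.Agent.TH841.SH.D (Sha ShaTor rk)

/-- the curve `y² = x (x - A) (x - B)` over `ℚ` -/
def E (A B : ℤ) : WeierstrassCurve ℚ := ⟨0, -((A : ℚ) + B), 0, (A : ℚ) * B, 0⟩

/-- the curve `y² = x³ + 2 (A + B) x² + (A - B)² x` over `ℚ`, the quotient of `E A B` by the
subgroup generated by the point `(0, 0)` -/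
def W (A B : ℤ) : WeierstrassCurve ℚ := ⟨0, 2 * ((A : ℚ) + B), 0, ((A : ℚ) - B) ^ 2, 0⟩

open Classical in
/-- **Theorem.** Let `D` be a nonzero integer, `δ, ε > 0` and `L` a natural number. There are `R`
and `X₀` such that for `X ≥ X₀` and `|N₁|, |N₂| ≤ X ^ L` all the coprime pairs `(a, b)` in the
square `N₁ < a ≤ N₁ + X`, `N₂ < b ≤ N₂ + X` with at most `ε X²` exceptions have the following
property: `A = D a`, `B = D b` and `A - B` are nonzero; all the groups `Ш(E)[2 ^ j]` of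
`E : y² = x (x - A) (x - B)` are finite and `2 ^ rank(E) * #Ш(E)[2 ^ j] ^ (1 / j) ≤ 2 ^ R` for all
`j ≥ 1`; and the Tate-Shafarevich group of the 2-isogenous curve
`W : y² = x³ + 2 (A + B) x² + (A - B)² x` has a subgroup `(ℤ / 2) ^ k` with
`k ≥ (3 / 2 - δ) log log X`. -/
theorem result (D : ℤ) (hD : D ≠ 0) (δ ε : ℝ) (L : ℕ) (hδ : 0 < δ) (hε : 0 < ε) :
    ∃ R X₀ : ℕ, ∀ (N₁ N₂ : ℤ) (X : ℕ), X₀ ≤ X → N₁.natAbs ≤ X ^ L → N₂.natAbs ≤ X ^ L →
      (((Icc 1 X ×ˢ Icc 1 X).filter (fun t : ℕ × ℕ =>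
        IsCoprime (N₁ + (t.1 : ℤ)) (N₂ + (t.2 : ℤ)) ∧
        ¬ ∀ A B : ℤ, A = D * (N₁ + (t.1 : ℤ)) → B = D * (N₂ + (t.2 : ℤ)) →
        A ≠ 0 ∧ B ≠ 0 ∧ A ≠ B ∧ (∀ j : ℕ, Finite (ShaTor (E A B) (2 ^ j))) ∧
        (∀ j : ℕ, 1 ≤ j → (2 : ℝ) ^ rk (E A B) *
          (Nat.card (ShaTor (E A B) (2 ^ j)) : ℝ) ^ ((1 : ℝ) / j) ≤ 2 ^ R) ∧
        ∃ k : ℕ, (3 / 2 - δ) * Real.log (Real.log X) ≤ k ∧
          ∃ φ : (Fin k → ZMod 2) →+ Sha (W A B), Function.Injective φ)).card : ℝ) ≤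
        ε * X ^ 2 := by
  obtain ⟨R, X₀, h⟩ := Pool.Agent.TH841.LS.large6 Pool.Agent.TH841.LS.CNT2Xf.cnt2x
    (Pool.Agent.W307.FK.avgn_of Pool.Agent.W307.FK.expf) D hD δ ε L hδ hε
  exact ⟨R + 1, X₀, h⟩

end Pool.Agent.Results.MP_8cb858_nt.LargeShaPairs
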