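import Mathlib
import Pool.Agent.TH344.MO.Main

/-!
# The exact order of the moments of the 2-Selmer groups of hyperelliptic Jacobians

Let `g ≥ 1`. For a tuple `a` of `2 g + 1` distinct integers let `J` be the Jacobian of the curve
`y² = ∏ (x - a_i)` of genus `g`. We determine the order of magnitude of all the integral moments of
the order of the 2-Selmer group of `J` over all the tuples with `|a_i| ≤ N`: for every natural number
`k` the mean value of the `k`-th powers lies between two positive multiples of `(log N) ^ max 0 γ_k`,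
`γ_k = (g / 2) (2 ^ k - 1) (1 - 4 g / 2 ^ k)`. So the `k`-th moment is bounded if and only if
`2 ^ k ≤ 4 g`; for larger `k` it is an exact power of the logarithm. For a real number `κ` with
`2 ^ κ > 4 g` the mean value of the `κ`-th powers is at least `c (log N) ^ γ_κ`.

The large moments come from tuples for which many primes divide the differences
`a_0 - a_1, a_2 - a_3, ..., a_(2g-2) - a_(2g-1)`, and few primes divide the other differences: the
primes `p` of the first kind, for which the tangents at the node of the reduction modulo `p` are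
rational over `𝔽_p`, give elements of the 2-Selmer group, and the conditions at the primes of the
second kind are the only ones. The upper bound shows that this is the worst case: the `k`-th moment
is a sum over families of integers indexed by the triples `(c, x, y)`, `c` a pair of indices, `x`, `y`
orthogonal vectors of `𝔽_2 ^ k`, and its order is given by the size of the largest unlinked set of
indices. In such a set the vectors `(x, y)` of a pair `c` are isotropic vectors of a subspace `W_c` of
`𝔽_2 ^ (2 k)`, and the subspaces of two pairs with a common index are orthogonal. The pairs with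
`dim W_c > k` form a matching, so there are at most `g` of them.

The descent map. Every class of divisors of degree zero on `X : y² = ∏ (x - a_i)` over an infinite
field `K` contains a divisor `D_(u,v) = ∑ (x_j, v (x_j)) - deg u · ∞`, `x_j` the zeros of the monic
polynomial `u`, where `u` divides `∏ (x - a_i) - v²` and `u (a_i) ≠ 0` for all `i` (Mumford
representation). The map `J(K) / 2 J(K) → (K^* / K^*²)^(2g+1)` which sends this class to the family
of the classes of `(-1) ^ deg u * u (a_i)` is injective, and it is induced by the isomorphism of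
`J[2]` with the group of the families of signs with product one, indexed by the `a_i`. So the
2-Selmer group of `J` is the group of the families of classes in `ℚ^* / ℚ^*²`, that are in the image
over `ℝ` and over `ℚ_p` for all primes `p`. The classes of `ℚ^* / ℚ^*²` are represented by
squarefree integers.
-/

namespace Pool.Agent.Results.MP_8cb858_nt.MomentOrders

open Polynomial Finset

/-- The family of the classes of the integers `d i` in `K^* / K^*²` is in the image of the
Jacobian of `y² = ∏ (x - a i)` over `K`: there are a monic polynomial `u` and a polynomial `v` with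
`u ∣ ∏ (x - a i) - v²`, such that `u (a i) ≠ 0` and `(-1) ^ deg u * u (a i) * d i` is a square for
all `i`. -/
def Image (K : Type) [Field K] {n : ℕ} (a d : Fin n → ℤ) : Prop :=
  ∃ u v : K[X], u.Monic ∧ u ∣ (∏ i, (X - C ((a i : ℤ) : K))) - v ^ 2 ∧
    ∀ i, u.eval ((a i : ℤ) : K) ≠ 0 ∧
      IsSquare ((-1) ^ u.natDegree * u.eval ((a i : ℤ) : K) * ((d i : ℤ) : K))

/-- The 2-Selmer group of the Jacobian `J` of `y² = ∏ (x - a i)`, as a set of families of
squarefree integers. -/
def Sel2 {n : ℕ} (a : Fin n → ℤ) : Set (Fin n → ℤ) :=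
  {d | (∀ i, Squarefree (d i)) ∧ Image ℝ a d ∧ ∀ (p : ℕ) [Fact p.Prime], Image ℚ_[p] a d}

/-- the tuples with `|a i| ≤ N` -/
def Box (n N : ℕ) : Set (Fin n → ℤ) := {a | ∀ i, |a i| ≤ N}

/-- the tuples of distinct integers with `|a i| ≤ N` -/
def Dist (n N : ℕ) : Set (Fin n → ℤ) := {a | a ∈ Box n N ∧ Function.Injective a}

/-- The sum of the `κ`-th powers of the orders of the 2-Selmer groups over the tuples of `2 g + 1`
distinct integers with `|a i| ≤ N`, divided by the number of all the tuples with `|a i| ≤ N`. (The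
proportion of the tuples with equal entries tends to zero.) -/
noncomputable def moment (g : ℕ) (κ : ℝ) (N : ℕ) : ℝ :=
  (∑ᶠ a ∈ Dist (2 * g + 1) N, ((Sel2 a).ncard : ℝ) ^ κ) / (Box (2 * g + 1) N).ncard

lemma Box_eq (n N : ℕ) : Box n N = (Pool.Agent.TH344.JG.BoxJ n N : Set (Fin n → ℤ)) := by
  ext a
  rw [Finset.mem_coe, Pool.Agent.TH344.JG.mem_BoxJ]
  unfold Box
  rw [Set.mem_ofPred_eq]
  refine forall_congr' fun i => ?_
  rw [Int.abs_eq_natAbs]
  exact Nat.cast_le

open scoped Classical in
lemma Dist_eq (n N : ℕ) : Dist n N =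
    (((Pool.Agent.TH344.JG.BoxJ n N).filter (fun a => Function.Injective a) :
      Finset (Fin n → ℤ)) : Set (Fin n → ℤ)) := by
  unfold Dist
  rw [Box_eq]
  ext a
  simp

lemma card_box (n N : ℕ) : (Pool.Agent.TH344.JG.BoxJ n N).card = (2 * N + 1) ^ n := by
  unfold Pool.Agent.TH344.JG.BoxJ
  rw [Fintype.card_piFinset, Finset.prod_const, Finset.card_univ, Fintype.card_fin, Int.card_Icc]
  congr 1
  omega

open scoped Classical in
lemma moment_eq (g : ℕ) (κ : ℝ) (N : ℕ) : moment g κ N =
    (∑ a ∈ (Pool.Agent.TH344.JG.BoxJ (2 * g + 1) N).filter (fun a => Function.Injective a),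
      ((Pool.Agent.TH344.JG.SelJ a).ncard : ℝ) ^ κ) / (2 * (N : ℝ) + 1) ^ (2 * g + 1) := by
  unfold moment
  rw [Dist_eq, finsum_mem_coe_finset, Box_eq, Set.ncard_coe_finset, card_box]
  push_cast
  rfl

/-- the exponent `(g / 2) (2 ^ κ - 1) (1 - 4 g / 2 ^ κ)` -/
noncomputable def gamma (g : ℕ) (κ : ℝ) : ℝ :=
  (g : ℝ) / 2 * ((2 : ℝ) ^ κ - 1) * (1 - 4 * g / (2 : ℝ) ^ κ)

/-- **Theorem.** Let `g ≥ 1`. For every tuple `a` of `2 g + 1` distinct integers the 2-Selmer group
`Sel2 a` of the Jacobian of `y² = ∏ (x - a i)` is finite. For every natural number `k` there are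
`c > 0`, `C` and `N0` such that the mean value `moment g k N` of the `k`-th powers of the orders of
these groups over the tuples with `|a i| ≤ N` satisfies
`c (log N) ^ max 0 γ ≤ moment g k N ≤ C (log N) ^ max 0 γ`, `γ = (g / 2) (2 ^ k - 1) (1 - 4 g / 2 ^ k)`,
for all `N ≥ N0`, and `γ > 0` if and only if `2 ^ k > 4 g`. If `κ` is a real number with
`2 ^ κ > 4 g` there are `c > 0` and `N0` such that `moment g κ N ≥ c (log N) ^ γ` for all `N ≥ N0`,
`γ = (g / 2) (2 ^ κ - 1) (1 - 4 g / 2 ^ κ)`. -/
theorem result (g : ℕ) (hg : 1 ≤ g) :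
    (∀ a : Fin (2 * g + 1) → ℤ, Function.Injective a → (Sel2 a).Finite) ∧
    (∀ k : ℕ, (0 < gamma g k ↔ 4 * g < 2 ^ k) ∧
      ∃ (c C : ℝ) (N0 : ℕ), 0 < c ∧ ∀ N : ℕ, N0 ≤ N →
        c * (Real.log N) ^ max 0 (gamma g k) ≤ moment g k N ∧
        moment g k N ≤ C * (Real.log N) ^ max 0 (gamma g k)) ∧
    ∀ κ : ℝ, 4 * (g : ℝ) < (2 : ℝ) ^ κ → ∃ (c : ℝ) (N0 : ℕ), 0 < c ∧ ∀ N : ℕ, N0 ≤ N →
      c * (Real.log N) ^ gamma g κ ≤ moment g κ N := by
  classical
  have hodd : Odd (2 * g + 1) := ⟨g, rfl⟩
  have hg1 : (1 : ℝ) ≤ g := by exact_mod_cast hg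
  refine ⟨fun a ha => Pool.Agent.TH344.JG.seljf hodd ha, fun k => ⟨?_, ?_⟩, fun κ hκ => ?_⟩
  · -- the sign of the exponent
    unfold gamma
    have h0 : (0 : ℝ) < (2 : ℝ) ^ (k : ℝ) := by positivity
    have h1 : (1 : ℝ) ≤ (2 : ℝ) ^ (k : ℝ) := by
      rw [Real.rpow_natCast]
      exact one_le_pow₀ (by norm_num)
    constructor
    · intro h
      by_contra hcon
      push Not at hcon
      have h2 : (2 : ℝ) ^ (k : ℝ) ≤ 4 * (g : ℝ) := by
        rw [Real.rpow_natCast]
        exact_mod_cast hcon
      have h3 : 1 ≤ 4 * (g : ℝ) / (2 : ℝ) ^ (k : ℝ) := by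
        rw [le_div_iff₀ h0]
        linarith
      have h4 : (g : ℝ) / 2 * ((2 : ℝ) ^ (k : ℝ) - 1) * (1 - 4 * g / (2 : ℝ) ^ (k : ℝ)) ≤ 0 :=
        mul_nonpos_of_nonneg_of_nonpos (mul_nonneg (by positivity) (by linarith)) (by linarith)
      linarith
    · intro h
      have h2 : 4 * (g : ℝ) < (2 : ℝ) ^ (k : ℝ) := by
        rw [Real.rpow_natCast]
        exact_mod_cast h
      have h3 : 0 < 1 - 4 * g / (2 : ℝ) ^ (k : ℝ) := by
        rw [sub_pos, div_lt_one h0]
        exact h2
      have h4 : 0 < (2 : ℝ) ^ (k : ℝ) - 1 := by linarith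
      have h5 : (0 : ℝ) < (g : ℝ) / 2 := by linarith
      exact mul_pos (mul_pos h5 h4) h3
  · -- the exact order
    obtain ⟨c, C, N0, hc, h⟩ := Pool.Agent.TH344.MO.order k hg
    have he : gamma g k = Pool.Agent.TH344.MO.gam g k := Pool.Agent.TH344.MO.gam_eq g k
    refine ⟨c, C, N0, hc, fun N hN => ?_⟩
    obtain ⟨h1, h2⟩ := h N hN
    rw [he, moment_eq]
    simp only [Real.rpow_natCast]
    constructor
    · rw [le_div_iff₀ (by positivity)]
      refine le_trans (le_of_eq ?_) h1
      ring
    · rw [div_le_iff₀ (by positivity)]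
      refine h2.trans (le_of_eq ?_)
      ring
  · -- real exponents
    obtain ⟨c, X0, hc, hX0⟩ := Pool.Agent.TH344.JT.thr g κ hg hκ
    refine ⟨c / 3 ^ (2 * g + 1), X0 + 1, by positivity, fun N hN => ?_⟩
    have h1 := hX0 N (by omega)
    have hN1 : (1 : ℝ) ≤ N := by exact_mod_cast (by omega : 1 ≤ N)
    rw [moment_eq, le_div_iff₀ (by positivity)]
    refine le_trans ?_ h1
    have hl : 0 ≤ Real.log N := Real.log_natCast_nonneg N
    have h2 : (2 * (N : ℝ) + 1) ^ (2 * g + 1) ≤ 3 ^ (2 * g + 1) * (N : ℝ) ^ (2 * g + 1) := by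
      rw [← mul_pow]
      exact pow_le_pow_left₀ (by positivity) (by linarith) _
    have he : gamma g κ = (g : ℝ) / 2 * ((2 : ℝ) ^ κ - 1) * (1 - 4 * g / (2 : ℝ) ^ κ) := rfl
    rw [← he]
    calc c / 3 ^ (2 * g + 1) * (Real.log N) ^ gamma g κ * (2 * (N : ℝ) + 1) ^ (2 * g + 1)
        ≤ c / 3 ^ (2 * g + 1) * (Real.log N) ^ gamma g κ *
            (3 ^ (2 * g + 1) * (N : ℝ) ^ (2 * g + 1)) :=
          mul_le_mul_of_nonneg_left h2 (mul_nonneg (by positivity) (Real.rpow_nonneg hl _))
      _ = c * ((N : ℝ) ^ (2 * g + 1) * (Real.log N) ^ gamma g κ) := by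
          field_simp

end Pool.Agent.Results.MP_8cb858_nt.MomentOrders
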